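import Pool.Agent.Helper66.EF.Tf
import Pool.Agent.Helper23.SB.An
import Pool.Agent.Helper83.SB.Fb
import Pool.Agent.Helper83.SB.Dh
import Pool.Agent.Helper10.EF.Gap
import Pool.Agent.Helper4.SB.Cf

set_option autoImplicit false

/-!
# The strong conjecture of Birch and Swinnerton-Dyer and an explicit inequality

`StrongBSD W F m` is (i), (ii), (iii) for the curve `W` whose Euler product continues to the entire
function `F` with a zero of order `m` at `1` (`IsCont W F m`).  If the coefficients of `W` and the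
values of `F` on the disc `|s - 2| ≤ 2` are at most `e ^ L`, it is equivalent to each of five
statements about inequalities `Major W Y M t n` between a product over prime powers and two values
of the theta series of the canonical height on `E(ℚ)`; `fac W n` is the factor made of the period,
the Tamagawa numbers, the `n`-Selmer group and the rational `n`-torsion.  For the four families of
curves with complex multiplication the continuation and the bounds are proved.
-/

open Filter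

open scoped Classical

namespace Pool.Agent.Helper66.Kept.EffectiveForm

open Pool.Agent.Helper9.BSD Pool.Agent.Helper66.EF Pool.Agent.Helper4.SB Pool.Agent.Helper99.CM

/-- The statements for the curve `W`, the continuation `F`, the order `m` and the number `M`. -/
def Equivalent (W : WeierstrassCurve ℤ) (F : ℂ → ℂ) (m M : ℕ) : Prop :=
  List.TFAE [
    StrongBSD W F m,
    Finite (TS W) ∧ ∀ t : ℝ, Real.exp ((M : ℝ) ^ 2) ≤ t →
      Major W (period W * tamProd W * Nat.card (TS W)) M t 1,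
    ∀ (t : ℝ) (n : ℕ), Real.exp ((M : ℝ) ^ 2) ≤ t → Real.exp ((M : ℝ) ^ 2) ≤ n →
      Major W (fac W n.factorial) M t n.factorial,
    ∀ n : ℕ, Real.exp ((M : ℝ) ^ 2) ≤ n → Major W (fac W n.factorial) M n n.factorial,
    ∀ᶠ n : ℕ in atTop, Major W (fac W n.factorial) M n n.factorial,
    ∃ᶠ n : ℕ in atTop, ∃ᶠ t : ℝ in atTop, Major W (fac W n.factorial) M t n.factorial]

theorem result :
    (∃ A : ℕ, ∀ (W : WeierstrassCurve ℤ) (F : ℂ → ℂ) (m : ℕ), W.Δ ≠ 0 → IsCont W F m →
      ∀ L : ℕ, 1 ≤ L → hgt W ≤ Real.exp L → (∀ s : ℂ, ‖s - 2‖ ≤ 2 → ‖F s‖ ≤ Real.exp L) →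
      Equivalent W F m (A * L)) ∧
    ∃ A : ℕ, ∀ k : ℤ, k ≠ 0 → ∀ W : WeierstrassCurve ℤ,
      (W = quar k ∨ W = sext k ∨ W = two (6 * k) (k ^ 2) ∨ W = two (6 * k) (-3 * k ^ 2)) →
      W.Δ ≠ 0 ∧ ∃ (F : ℂ → ℂ) (m : ℕ), IsCont W F m ∧
        ∀ L : ℕ, 2 + |(k : ℝ)| ≤ Real.exp L → Equivalent W F m (A * L) := by
  obtain ⟨C₁, hC₁⟩ := Pool.Agent.Helper23.SB.analytic
  obtain ⟨C₂, hC₂⟩ := Pool.Agent.Helper10.EF.heights
  obtain ⟨A₁, hA₁⟩ := Pool.Agent.Helper83.SB.forward_of C₁ hC₁ C₂ hC₂ 8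
  obtain ⟨A, hA⟩ := tfae_of hC₁ hA₁ fun W F m hD hF L hL1 hL M hM hev =>
    Pool.Agent.Helper83.SB.diag_back hC₁ hD hF hL1 hL hM hev
  refine ⟨⟨A, hA⟩, ?_⟩
  obtain ⟨B, hB⟩ := cm_families
  refine ⟨A * (B + 1), fun k hk W hW => ?_⟩
  obtain ⟨hD, F, m, hF, hh, hb⟩ := hB k hk W hW
  refine ⟨hD, F, m, hF, fun L hL => ?_⟩
  have hk1 : (0 : ℝ) ≤ |(k : ℝ)| := abs_nonneg _
  have hL1 : 1 ≤ L := by
    rcases Nat.eq_zero_or_pos L with h | h
    · subst h
      rw [Nat.cast_zero, Real.exp_zero] at hL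
      linarith
    · exact h
  have hpow : (2 + |(k : ℝ)|) ^ B ≤ Real.exp (((B + 1) * L : ℕ) : ℝ) := by
    calc (2 + |(k : ℝ)|) ^ B ≤ Real.exp L ^ B := pow_le_pow_left₀ (by linarith) hL B
      _ = Real.exp (B * L) := by rw [← Real.exp_nat_mul]
      _ ≤ Real.exp (((B + 1) * L : ℕ) : ℝ) := by
        refine Real.exp_le_exp.2 ?_
        push_cast
        have : (0 : ℝ) ≤ L := Nat.cast_nonneg _
        nlinarith
  have h := hA W F m hD hF ((B + 1) * L) (Nat.one_le_iff_ne_zero.2 (by positivity))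
    (hh.trans hpow) fun s hs => (hb s hs).trans hpow
  rw [← mul_assoc] at h
  exact h

end Pool.Agent.Helper66.Kept.EffectiveForm
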