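import Pool.Agent.Helper66.RF.Ex
import Pool.Agent.Helper56.BSD.Main
import Pool.Agent.Helper99.CM.TpL2
import Pool.Agent.Helper99.CM.Fam

set_option autoImplicit false

namespace Pool.Agent.Results.MP_4a9ea6_nt.RHFreeProduct

open Complex MeasureTheory Set Filter Topology Pool.Agent.Helper9.BSD Pool.Agent.Helper99.CM
  Pool.Agent.Helper56.BSD

/-- The weight `W_a(y)`: `1` for `y ≤ 0`, and for `y > 0` the integral of `exp (w - y w^a) / w`
over the line `Re w = 1`, divided by `2 π i` (principal power; with `w = 1 + i t` the real part of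
the integrand is integrated over `t` and divided by `2 π`). -/
noncomputable def weight (a y : ℝ) : ℝ :=
  if y ≤ 0 then 1 else
    (1 / (2 * Real.pi)) * ∫ t : ℝ,
      (cexp ((1 + (t : ℂ) * I) - (y : ℂ) * (1 + (t : ℂ) * I) ^ (a : ℂ)) / (1 + (t : ℂ) * I)).re

/-- The product of `(N_p / p) ^ W_a(log p / (c log x)^a)` over the primes `p ≤ x` which do not
divide the discriminant. -/
noncomputable def bsdFin (W : WeierstrassCurve ℤ) (a c x : ℝ) : ℝ :=
  ∏ p ∈ (Finset.Icc 1 ⌊x⌋₊).filter (fun p : ℕ => p.Prime ∧ ¬ (p : ℤ) ∣ W.Δ),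
    ((numPts W p : ℝ) / p) ^ weight a (Real.log p / (c * Real.log x) ^ a)

/-- `F` has no zero `s ≠ 1` in the sector `|arg (s - 1)| < π a / 2`. -/
def SectorFree (F : ℂ → ℂ) (a : ℝ) : Prop :=
  ∀ s : ℂ, s ≠ 1 → |arg (s - 1)| < Real.pi * a / 2 → F s ≠ 0

/-- For real `κ` and `C > 0`: `P(x) / (log x)^κ` tends to `C` if and only if the sector is free of
zeros, `κ = κ₀` and `C = K`. -/
def Asym (P : ℝ → ℝ) (F : ℂ → ℂ) (a κ₀ K : ℝ) : Prop :=
  ∀ κ C : ℝ, 0 < C → (Tendsto (fun x : ℝ => P x / (Real.log x) ^ κ) atTop (𝓝 C) ↔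
    SectorFree F a ∧ κ = κ₀ ∧ C = K)

/-- The sector is free of zeros if and only if `P(x) ≤ exp (x^ε)` for every `ε > 0` and all large
`x`; if `F` has no real zero greater than `1`, also if and only if `P(x) ≥ exp (-x^ε)` for every
`ε > 0` and all large `x`. -/
def Growth (P : ℝ → ℝ) (F : ℂ → ℂ) (a : ℝ) : Prop :=
  ((∀ ε : ℝ, 0 < ε → ∀ᶠ x : ℝ in atTop, P x ≤ Real.exp (x ^ ε)) ↔ SectorFree F a) ∧
  ((∀ x : ℝ, 1 < x → F x ≠ 0) →
    ((∀ ε : ℝ, 0 < ε → ∀ᶠ x : ℝ in atTop, Real.exp (-x ^ ε) ≤ P x) ↔ SectorFree F a))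

/-- Let `W` be an integral Weierstrass equation with nonzero discriminant which satisfies `SqWin`,
let `F` be entire and equal to the Euler product `LE W` for `Re s > 3/2`, let `m` be its order of
vanishing and `F^(m)(1) / m!` its leading Taylor coefficient at `s = 1`.

(1) For all `0 < a < 1` and `0 < c < (cos (π a / 2) / 4)^(1/a)` the smoothed product `bsdFin W a c`
of the `N_p / p` satisfies `Asym` with the exponent `a m` and the constant
`√2 (c e^γ)^(a m) / (|F^(m)(1) / m!| badProd W)`, and it satisfies `Growth`.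

(2) The case `a = 1`: if `F` grows at most polynomially for `Re s ≥ 0`, then for all `b > 1` the
product `bsdCut W b` of the `N_p / p` with the exponents `1` for `p ≤ x` and
`1 - log (p / x) / log b` for `x < p ≤ b x` satisfies `Asym` with `a = 1`, the exponent `m` and the
constant `√2 e^(γ m) / (|F^(m)(1) / m!| badProd W)`.

(3) Some sector with `a > 0` is free of zeros if and only if `F` has no real zero `x > 1`; the sector
with `a = 1` is free of zeros if and only if all sectors with `0 < a < 1` are, and if and only if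
`F(s) ≠ 0` for `Re s > 1`.

(4) For every `k ≠ 0` the curves `y² = x³ - k x`, `y² = x³ + k`, `y² = x³ + 6 k x² + k² x` and
`y² = x³ + 6 k x² - 3 k² x` have such `F` and `m`, with `F` of polynomial growth for `Re s ≥ 0`, and
satisfy `SqWin`.

(5) For `n = 1, 2` the curve `y² = x³ - n² x` has `m = 0` and the sector is free of zeros for every
`a ≤ 3/4`; for `a = 1/2`, `c = 1/64` the product over the primes `3 ≤ p ≤ x` of
`(N_p / p) ^ erfc (4 log p / √(log x))` tends to `√2 / |F 1|`. -/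
theorem result :
    (∀ W : WeierstrassCurve ℤ, W.Δ ≠ 0 → SqWin W → ∀ (F : ℂ → ℂ) (m : ℕ), IsCont W F m →
      (∀ a c : ℝ, 0 < a → a < 1 → 0 < c → c < (Real.cos (Real.pi * a / 2) / 4) ^ (1 / a) →
        Asym (bsdFin W a c) F a (a * m)
          (√2 * (c * Real.exp Real.eulerMascheroniConstant) ^ (a * m)
            / (‖iteratedDeriv m F 1 / (m.factorial : ℂ)‖ * badProd W)) ∧
        Growth (bsdFin W a c) F a) ∧
      ((∃ (M : ℝ) (n : ℕ), ∀ s : ℂ, 0 ≤ s.re → ‖F s‖ ≤ M * (1 + ‖s‖) ^ n) → ∀ b : ℝ, 1 < b →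
        Asym (bsdCut W b) F 1 m (√2 * Real.exp (Real.eulerMascheroniConstant * m)
          / (‖iteratedDeriv m F 1 / (m.factorial : ℂ)‖ * badProd W))) ∧
      ((∀ x : ℝ, 1 < x → F x ≠ 0) ↔ ∃ a : ℝ, 0 < a ∧ a < 1 ∧ SectorFree F a) ∧
      (SectorFree F 1 ↔ ∀ a : ℝ, 0 < a → a < 1 → SectorFree F a) ∧
      (SectorFree F 1 ↔ ∀ s : ℂ, 1 < s.re → F s ≠ 0)) ∧
    (∀ k : ℤ, k ≠ 0 → ∀ W : WeierstrassCurve ℤ,
      W = quar k ∨ W = sext k ∨ W = two (6 * k) (k ^ 2) ∨ W = two (6 * k) (-3 * k ^ 2) →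
      W.Δ ≠ 0 ∧ SqWin W ∧ ∃ (F : ℂ → ℂ) (m : ℕ), IsCont W F m ∧
        ∃ (M : ℝ) (n : ℕ), ∀ s : ℂ, 0 ≤ s.re → ‖F s‖ ≤ M * (1 + ‖s‖) ^ n) ∧
    (∀ n : ℕ, n = 1 ∨ n = 2 → ∀ (F : ℂ → ℂ) (m : ℕ), IsCont (quar ((n : ℤ) ^ 2)) F m →
      m = 0 ∧ (∀ a : ℝ, a ≤ 3 / 4 → SectorFree F a) ∧
      Tendsto (fun x : ℝ => ∏ p ∈ (Finset.Icc 3 ⌊x⌋₊).filter Nat.Prime,
        ((numPts (quar ((n : ℤ) ^ 2)) p : ℝ) / p)
          ^ (2 / √Real.pi * ∫ t in Ioi (4 * Real.log p / √(Real.log x)), Real.exp (-t ^ 2)))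
        atTop (𝓝 (√2 / ‖F 1‖))) := by
  have hone : ∀ F : ℂ → ℂ, (SectorFree F 1 ↔ ∀ s : ℂ, 1 < s.re → F s ≠ 0) := by
    intro F
    unfold SectorFree
    simp only [mul_one]
    constructor
    · intro h s hs
      refine h s ?_ ?_
      · rintro rfl
        simp at hs
      · rw [Complex.abs_arg_lt_pi_div_two_iff]
        left
        rw [Complex.sub_re, Complex.one_re]
        linarith
    · intro h s hs harg
      rw [Complex.abs_arg_lt_pi_div_two_iff] at harg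
      rcases harg with h2 | h2
      · refine h s ?_
        rw [Complex.sub_re, Complex.one_re] at h2
        linarith
      · exact absurd (sub_eq_zero.mp h2) hs
  refine ⟨fun W hΔ hS F m hF => ⟨fun a c h0 h1 hc hc2 => ?_, ?_, ?_, ?_, ?_⟩,
    fun k hk W hW => ?_, fun n hn F m hF => ?_⟩
  · exact Pool.Agent.Helper66.RF.law_bsd W hΔ hS hF h0 h1 hc hc2
  · rintro ⟨M, n, hg⟩ b hb
    obtain ⟨hFd, hFL, hm⟩ := hF
    have hq := norm_pos_iff.mpr (leading_coeff F hFd m hm).1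
    have hB := badProd_pos W hΔ
    intro κ C hC
    have hK0 : 0 < √2 * Real.exp (Real.eulerMascheroniConstant * m)
        / (‖iteratedDeriv m F 1 / (m.factorial : ℂ)‖ * badProd W) := by positivity
    rw [conv (fun x hx => log_bsdCut W hb hx) hC,
      gB_window_iff_g W hΔ hS hFd hFL hm hg rfl (Real.log_pos hb), hone]
    refine and_congr_right fun _ => and_congr_right fun _ => ?_
    exact ⟨fun h => Real.log_injOn_pos hC hK0 h, fun h => by rw [h]⟩
  · exact Pool.Agent.Helper66.RF.real_iff W hΔ hF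
  · rw [hone]
    exact Pool.Agent.Helper66.RF.half_iff
  · exact hone F
  · obtain ⟨hΔ, hS, F, m, h, hg⟩ := cm_all hk hW
    exact ⟨hΔ, hS, F, m, h, hg⟩
  · have hm := (Pool.Agent.Helper9.BSDL2.congr_real n hn F m hF).1
    exact ⟨hm, fun a ha => Pool.Agent.Helper66.RF.quar_sector n hn hF ha,
      Pool.Agent.Helper66.RF.example_limit n hn hF hm⟩

end Pool.Agent.Results.MP_4a9ea6_nt.RHFreeProduct
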